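import Pool.Agent.Q111.SP.Base

/-! # Project SP, job Y10: the height is bounded -/

set_option autoImplicit false

namespace Pool.Agent.Q111.SP

open Finset Polynomial
open Pool.Agent.Q41.SU Pool.Agent.Q41.SP

universe u

theorem RM_of (E : Type*) [Field E] (d : ℕ) (p q : E[X]) (hp : p.natDegree ≤ d)
    (hq : q.natDegree = d) (hco : IsCoprime p q) : RM d p q :=
  ⟨hco, by rw [hq]; exact max_eq_right hp⟩

/-- the polynomial for preperiodic points -/
theorem psi_ne_zero {E : Type*} [Field E] (m n : ℕ) (hmn : m ≠ n) (a b a' b' : E[X])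
    (h : RM m a b) (h' : RM n a' b') : a * b' - a' * b ≠ 0 := by
  intro h0
  have h1 : a * b' = a' * b := sub_eq_zero.1 h0
  have c1 : a ∣ a' := h.co.dvd_of_dvd_mul_right (by rw [← h1]; exact dvd_mul_right _ _)
  have c2 : a' ∣ a := h'.co.dvd_of_dvd_mul_right (by rw [h1]; exact dvd_mul_right _ _)
  have c3 : b ∣ b' := h.co.symm.dvd_of_dvd_mul_left (by rw [h1]; exact dvd_mul_left _ _)
  have c4 : b' ∣ b := h'.co.symm.dvd_of_dvd_mul_left (by rw [← h1]; exact dvd_mul_left _ _)
  have e1 : a.natDegree = a'.natDegree :=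
    natDegree_eq_of_degree_eq (degree_eq_degree_of_associated (associated_of_dvd_dvd c1 c2))
  have e2 : b.natDegree = b'.natDegree :=
    natDegree_eq_of_degree_eq (degree_eq_degree_of_associated (associated_of_dvd_dvd c3 c4))
  apply hmn
  rw [← h.deg, ← h'.deg, e1, e2]

theorem psi_deg {E : Type*} [Field E] (m n B : ℕ) (hm : m ≤ B) (hn : n ≤ B) (a b a' b' : E[X])
    (h : RM m a b) (h' : RM n a' b') : (a * b' - a' * b).natDegree ≤ 2 * B := by
  have e1 : a.natDegree ≤ B := by
    have := h.deg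
    have := le_max_left a.natDegree b.natDegree
    omega
  have e2 : b.natDegree ≤ B := by
    have := h.deg
    have := le_max_right a.natDegree b.natDegree
    omega
  have e3 : a'.natDegree ≤ B := by
    have := h'.deg
    have := le_max_left a'.natDegree b'.natDegree
    omega
  have e4 : b'.natDegree ≤ B := by
    have := h'.deg
    have := le_max_right a'.natDegree b'.natDegree
    omega
  refine (natDegree_sub_le _ _).trans (max_le ?_ ?_)
  · refine natDegree_mul_le.trans ?_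
    omega
  · refine natDegree_mul_le.trans ?_
    omega

/-- points of a finite stable set of a twisted map are in `E ^ (l ^ (h - c))` -/
theorem point_level (hrt : S_rtP.{u}) (hit : S_itP.{u}) (l h c d : ℕ) (E : Type u) [Field E]
    [Fact l.Prime] [CharP E l] (hd : 2 ≤ d) (p q : E[X])
    (hrm : RM d (p.map (iterateFrobenius E l h)) (q.map (iterateFrobenius E l h))) (P : Finset E)
    (hP : Stab (p.map (iterateFrobenius E l h)) (q.map (iterateFrobenius E l h)) P)
    (hc : 2 * d ^ P.card ≤ l ^ c) (z : E) (hz : z ∈ P) : ∃ w, z = w ^ l ^ (h - c) := by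
  classical
  obtain ⟨f, hf⟩ : ∃ f : E → E, f = fun y => (p.map (iterateFrobenius E l h)).eval y /
    (q.map (iterateFrobenius E l h)).eval y := ⟨_, rfl⟩
  have hmem : ∀ n, f^[n] z ∈ P := by
    intro n
    induction n with
    | zero => exact hz
    | succ n ih =>
      rw [Function.iterate_succ_apply', hf]
      rw [hf] at ih
      exact (hP _ ih).2
  have hdeg := hrm.deg
  have horb := itr_orbit d (p.map (iterateFrobenius E l h)) (q.map (iterateFrobenius E l h))
    (by rw [← hdeg]; exact le_max_left _ _) (by rw [← hdeg]; exact le_max_right _ _)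
    (fun n => f^[n] z) (fun n => ⟨(hP _ (hmem n)).1, by
      simp only [Function.iterate_succ_apply']
      rw [hf]⟩)
  simp only [Function.iterate_zero, id_eq] at horb
  obtain ⟨i, hi, j, hj, hij, he⟩ : ∃ i ∈ range (P.card + 1), ∃ j ∈ range (P.card + 1), i ≠ j ∧
      f^[i] z = f^[j] z := by
    apply exists_ne_map_eq_of_card_lt_of_maps_to (t := P)
    · rw [card_range]
      omega
    · intro n _
      exact hmem n
  have hrm0 := RM_of_map _ d p q hrm
  have ri := (hit E d p q (by omega) hrm0 i).1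
  have rj := (hit E d p q (by omega) hrm0 j).1
  rw [mem_range] at hi hj
  have hne : (itr d p q i).1 * (itr d p q j).2 - (itr d p q j).1 * (itr d p q i).2 ≠ 0 :=
    psi_ne_zero (d ^ i) (d ^ j) (fun hh => hij (Nat.pow_right_injective hd hh)) _ _ _ _ ri rj
  refine hrt l h c E _ z hne ((psi_deg (d ^ i) (d ^ j) (d ^ P.card)
    (Nat.pow_le_pow_right (by omega) (by omega)) (Nat.pow_le_pow_right (by omega) (by omega))
    _ _ _ _ ri rj).trans hc) ?_
  rw [Polynomial.map_sub, Polynomial.map_mul, Polynomial.map_mul, (itr_map _ d p q i).1,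
    (itr_map _ d p q j).2, (itr_map _ d p q j).1, (itr_map _ d p q i).2]
  obtain ⟨i1, i2⟩ := horb i
  obtain ⟨j1, j2⟩ := horb j
  rw [i2, j2, div_eq_div_iff i1 j1] at he
  rw [eval_sub, eval_mul, eval_mul, he, sub_self]

theorem y10 : S_infP.{u} → S_rtP.{u} → S_normP.{u} → S_itP.{u} → S_bhP.{u} := by
  intro hinf hrt hnorm hit l d k E _ _ _ _ _ _ _ t G _ hG hd p q hp hq hco P hP hcard hiso
  classical
  have hrm : RM d p q := RM_of E d p q hp hq hco
  have h0 : Hgt l 0 d p q := ⟨_, _, _, Ov_zero l d p q hrm⟩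
  by_contra hno
  push Not at hno
  have hbig : ∀ N, ∃ h, N ≤ h ∧ Hgt l h d p q := by
    intro N
    induction N with
    | zero => exact ⟨0, le_rfl, h0⟩
    | succ N ih =>
      obtain ⟨h, h1, h2⟩ := ih
      obtain ⟨h', h3, h4⟩ := hno h h2
      exact ⟨h', by omega, h3⟩
  have hl : 2 ≤ l := (Fact.out : l.Prime).two_le
  obtain ⟨c, hc⟩ : ∃ c, 2 * d ^ P.card ≤ l ^ c :=
    ⟨2 * d ^ P.card, (Nat.lt_pow_self hl).le⟩
  have key : ∀ N : ℕ, ∀ x0 ∈ P, ∀ x1 ∈ P, ∀ x2 ∈ P, ∀ x ∈ P,
      ∃ w, ((x - x0) * (x1 - x2)) / ((x - x2) * (x1 - x0)) = w ^ l ^ N := by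
    intro N x0 h0 x1 h1 x2 h2 x hx
    obtain ⟨h, hNh, μ, p₀, q₀, hov⟩ := hbig (N + c)
    obtain ⟨μ', p₁, q₁, P', hov', hq1, hcard', hstab, hfr⟩ :=
      hnorm l h d k E p q p₀ q₀ μ P hd hrm hP hov
    have hinj : Set.InjOn μ'.app P' := fun a ha b hb hab =>
      app_inj μ' hov'.det a b (hfr a ha).1 (hfr b hb).1 hab
    have himg : P'.image μ'.app = P := by
      apply eq_of_subset_of_card_le
      · intro y hy
        obtain ⟨z, hz, rfl⟩ := mem_image.1 hy
        exact (hfr z hz).2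
      · rw [card_image_of_injOn hinj, hcard']
    have hlev : ∀ y ∈ P, ∃ z ∈ P', μ'.app z = y ∧ ∃ w, z = w ^ l ^ N := by
      intro y hy
      rw [← himg] at hy
      obtain ⟨z, hz, rfl⟩ := mem_image.1 hy
      obtain ⟨w, hw⟩ := point_level hrt hit l h c d E hd p₁ q₁ hov'.rm P' hstab
        (by rw [hcard']; exact hc) z hz
      refine ⟨z, hz, rfl, w ^ l ^ (h - c - N), ?_⟩
      rw [hw, ← pow_mul, ← pow_add]
      congr 2
      omega
    obtain ⟨z, hz, rfl, w, hw⟩ := hlev x hx
    obtain ⟨z0, hz0, rfl, w0, hw0⟩ := hlev x0 h0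
    obtain ⟨z1, hz1, rfl, w1, hw1⟩ := hlev x1 h1
    obtain ⟨z2, hz2, rfl, w2, hw2⟩ := hlev x2 h2
    rw [cross μ' hov'.det z z0 z1 z2 (hfr z hz).1 (hfr z0 hz0).1 (hfr z1 hz1).1 (hfr z2 hz2).1]
    refine ⟨((w - w0) * (w1 - w2)) / ((w - w2) * (w1 - w0)), ?_⟩
    rw [hw, hw0, hw1, hw2, div_pow, mul_pow, mul_pow, sub_pow_expChar_pow, sub_pow_expChar_pow,
      sub_pow_expChar_pow, sub_pow_expChar_pow]
  apply hiso
  apply Pool.Agent.W277.UH.conj_of_cross p q d hp hq hd hco P hP P subset_rfl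
  · intro x0 h0 x1 h1 x2 h2 x hx _ _ _ _ _
    obtain ⟨s, hs⟩ := hinf l k E t G hG _ (fun N => key N x0 h0 x1 h1 x2 h2 x hx)
    exact ⟨s, hs.symm⟩
  · rw [sdiff_self, bot_eq_empty, card_empty]
    omega

end Pool.Agent.Q111.SP
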