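import Pool.Agent.Q41.SP.Stm6

/-! # Project SP, job Y12: two frames agree up to a bounded number of levels -/

set_option autoImplicit false

namespace Pool.Agent.Q111.SP

open Finset Polynomial
open Pool.Agent.Q41.SU Pool.Agent.Q41.SP

universe u

theorem lin_coprime {E : Type*} [Field E] (m : Mb E) (h : m.det ≠ 0) :
    IsCoprime (C m.α * X + C m.β : E[X]) (C m.γ * X + C m.δ) := by
  unfold Mb.det at h
  refine ⟨C (-(m.γ) / (m.α * m.δ - m.β * m.γ)), C (m.α / (m.α * m.δ - m.β * m.γ)), ?_⟩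
  have e1 : C (-(m.γ) / (m.α * m.δ - m.β * m.γ)) * (C m.α * X + C m.β : E[X]) +
      C (m.α / (m.α * m.δ - m.β * m.γ)) * (C m.γ * X + C m.δ) =
      C (-(m.γ) / (m.α * m.δ - m.β * m.γ) * m.α + m.α / (m.α * m.δ - m.β * m.γ) * m.γ) * X +
      C (-(m.γ) / (m.α * m.δ - m.β * m.γ) * m.β + m.α / (m.α * m.δ - m.β * m.γ) * m.δ) := by
    simp only [C_add, C_mul]
    ring
  rw [e1]
  have e2 : -(m.γ) / (m.α * m.δ - m.β * m.γ) * m.α + m.α / (m.α * m.δ - m.β * m.γ) * m.γ = 0 := by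
    field_simp
    ring
  have e3 : -(m.γ) / (m.α * m.δ - m.β * m.γ) * m.β + m.α / (m.α * m.δ - m.β * m.γ) * m.δ = 1 := by
    rw [div_mul_eq_mul_div, div_mul_eq_mul_div, ← add_div, div_eq_one_iff_eq h]
    ring
  rw [e2, e3]
  simp

theorem lin_RM {E : Type*} [Field E] (m : Mb E) (h : m.det ≠ 0) :
    RM 1 (C m.α * X + C m.β : E[X]) (C m.γ * X + C m.δ) := by
  refine ⟨lin_coprime m h, ?_⟩
  have hle : ∀ a b : E, (C a * X + C b : E[X]).natDegree ≤ 1 := fun a b => natDegree_linear_le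
  have hor : m.α ≠ 0 ∨ m.γ ≠ 0 := by
    by_contra hh
    push Not at hh
    apply h
    unfold Mb.det
    rw [hh.1, hh.2]
    ring
  apply le_antisymm (max_le (hle _ _) (hle _ _))
  rcases hor with h1 | h1
  · rw [natDegree_linear h1]
    exact le_max_left _ _
  · rw [natDegree_linear h1]
    exact le_max_right _ _

theorem hcm_one {E : Type*} [Field E] (a b : E) (u v : E[X]) :
    hcm 1 (C a * X + C b) u v = C a * u + C b * v := by
  unfold hcm
  rw [sum_range_succ, sum_range_succ, sum_range_zero]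
  simp
  ring

theorem y12 : S_ctP.{u} → S_tslP.{u} := by
  intro hct l d hl hd
  obtain ⟨c, hc⟩ := hct l d 1 hl hd le_rfl
  refine ⟨c, ?_⟩
  intro k E _ _ _ _ _ τ D hτ K p₁ q₁ p₀ q₀ μ hrm hov x hx
  obtain ⟨b, v₀, w₀, hb, hv, hw⟩ := hc k E τ D hτ K p₀ q₀ p₁ q₁ (C μ.α * X + C μ.β)
    (C μ.γ * X + C μ.δ) hov.rm hrm (lin_RM μ hov.det) (by
      rw [hcm_one, hcm_one]
      have := hov.eq
      rw [mul_comm, ← this]
      ring)
  obtain ⟨w, hden, rfl⟩ := hx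
  obtain ⟨L, hL⟩ : ∃ L, L = l ^ (K - c) := ⟨_, rfl⟩
  have hKL : l ^ K = l ^ (K - (K - c)) * L := by
    rw [hL, ← pow_add]
    congr 1
    omega
  have co : ∀ (f g : E[X]) (n : ℕ), f = g.map (iterateFrobenius E l (K - c)) →
      f.coeff n = (g.coeff n) ^ L := by
    intro f g n h
    rw [h, coeff_map, iterateFrobenius_def, hL]
  have a1 := co _ _ 1 hv
  have a0 := co _ _ 0 hv
  have c1 := co _ _ 1 hw
  have c0 := co _ _ 0 hw
  simp only [coeff_C_mul, coeff_add, coeff_X_one, coeff_X_zero, coeff_C_zero, mul_one, mul_zero,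
    zero_add, coeff_C_succ, add_zero] at a1 a0 c1 c0
  refine ⟨(v₀.coeff 1 * w ^ l ^ (K - (K - c)) + v₀.coeff 0) /
    (w₀.coeff 1 * w ^ l ^ (K - (K - c)) + w₀.coeff 0), ?_⟩
  have fr : ∀ x y : E, (x + y) ^ L = x ^ L + y ^ L := by
    intro x y
    rw [hL]
    exact add_pow_expChar_pow x y l _
  rw [← hL, div_pow, fr, fr, mul_pow, mul_pow, ← pow_mul, ← hKL, ← a1, ← a0, ← c1, ← c0]
  unfold Mb.app
  unfold Mb.den at hden ⊢
  have e1 : b * μ.γ * w ^ l ^ K + b * μ.δ = b * (μ.γ * w ^ l ^ K + μ.δ) := by ring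
  have e2 : b * μ.α * w ^ l ^ K + b * μ.β = b * (μ.α * w ^ l ^ K + μ.β) := by ring
  rw [e1, e2, mul_div_mul_left _ _ hb]

end Pool.Agent.Q111.SP
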