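import Pool.Agent.Q41.SP.Stm6

/-! # Project SP: base lemmas on iterates and frames -/

set_option autoImplicit false

namespace Pool.Agent.Q111.SP

open Finset Polynomial
open Pool.Agent.Q41.SU Pool.Agent.Q41.SP

universe u

section

variable {E F : Type*} [Field E] [Field F]

theorem hcm_eval (d : ℕ) (A u v : E[X]) (hA : A.natDegree ≤ d) (z : E) (hv : v.eval z ≠ 0) :
    (hcm d A u v).eval z = v.eval z ^ d * A.eval (u.eval z / v.eval z) := by
  unfold hcm
  rw [eval_finsetSum, eval_eq_sum_range' (p := A) (n := d + 1) (by omega), mul_sum]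
  apply sum_congr rfl
  intro i hi
  rw [mem_range] at hi
  rw [eval_mul, eval_mul, eval_C, eval_pow, eval_pow, div_pow]
  obtain ⟨j, rfl⟩ : ∃ j, d = i + j := ⟨d - i, by omega⟩
  rw [Nat.add_sub_cancel_left, pow_add]
  field_simp

theorem hcm_map (f : E →+* F) (d : ℕ) (A u v : E[X]) :
    (hcm d A u v).map f = hcm d (A.map f) (u.map f) (v.map f) := by
  unfold hcm
  rw [Polynomial.map_sum]
  apply sum_congr rfl
  intro i _
  simp only [Polynomial.map_mul, Polynomial.map_pow, map_C, coeff_map]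

theorem itr_map (f : E →+* F) (d : ℕ) (p q : E[X]) (n : ℕ) :
    (itr d p q n).1.map f = (itr d (p.map f) (q.map f) n).1 ∧
    (itr d p q n).2.map f = (itr d (p.map f) (q.map f) n).2 := by
  induction n with
  | zero => simp [itr]
  | succ n ih =>
    simp only [itr]
    rw [hcm_map, hcm_map, ih.1, ih.2]
    exact ⟨rfl, rfl⟩

theorem itr_orbit (d : ℕ) (p q : E[X]) (hp : p.natDegree ≤ d) (hq : q.natDegree ≤ d) (x : ℕ → E)
    (hx : ∀ i, q.eval (x i) ≠ 0 ∧ x (i + 1) = p.eval (x i) / q.eval (x i)) (n : ℕ) :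
    (itr d p q n).2.eval (x 0) ≠ 0 ∧
      x n = (itr d p q n).1.eval (x 0) / (itr d p q n).2.eval (x 0) := by
  induction n with
  | zero => simp [itr]
  | succ n ih =>
    obtain ⟨h1, h2⟩ := ih
    simp only [itr]
    rw [hcm_eval d p _ _ hp _ h1, hcm_eval d q _ _ hq _ h1, ← h2]
    refine ⟨mul_ne_zero (pow_ne_zero _ h1) (hx n).1, ?_⟩
    rw [(hx n).2, mul_div_mul_left _ _ (pow_ne_zero _ h1)]

theorem app_sub (m : Mb E) (x y : E) (hx : m.den x ≠ 0) (hy : m.den y ≠ 0) :
    m.app x - m.app y = m.det * (x - y) / (m.den x * m.den y) := by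
  unfold Mb.app
  rw [div_sub_div _ _ hx hy]
  congr 1
  unfold Mb.den Mb.det
  ring

theorem app_inj (m : Mb E) (hm : m.det ≠ 0) (x y : E) (hx : m.den x ≠ 0) (hy : m.den y ≠ 0)
    (h : m.app x = m.app y) : x = y := by
  have h1 := app_sub m x y hx hy
  rw [h, sub_self, eq_comm, div_eq_zero_iff] at h1
  rcases h1 with h1 | h1
  · rcases mul_eq_zero.1 h1 with h2 | h2
    · exact absurd h2 hm
    · exact sub_eq_zero.1 h2
  · exact absurd h1 (mul_ne_zero hx hy)

theorem cross (m : Mb E) (hm : m.det ≠ 0) (x x0 x1 x2 : E) (hx : m.den x ≠ 0) (hx0 : m.den x0 ≠ 0)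
    (hx1 : m.den x1 ≠ 0) (hx2 : m.den x2 ≠ 0) :
    ((m.app x - m.app x0) * (m.app x1 - m.app x2)) / ((m.app x - m.app x2) * (m.app x1 - m.app x0))
      = ((x - x0) * (x1 - x2)) / ((x - x2) * (x1 - x0)) := by
  rw [app_sub m _ _ hx hx0, app_sub m _ _ hx1 hx2, app_sub m _ _ hx hx2, app_sub m _ _ hx1 hx0]
  have e1 : m.det * (x - x0) / (m.den x * m.den x0) * (m.det * (x1 - x2) / (m.den x1 * m.den x2)) =
    (m.det ^ 2 / (m.den x * m.den x0 * m.den x1 * m.den x2)) * ((x - x0) * (x1 - x2)) := by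
    field_simp
  have e2 : m.det * (x - x2) / (m.den x * m.den x2) * (m.det * (x1 - x0) / (m.den x1 * m.den x0)) =
    (m.det ^ 2 / (m.den x * m.den x0 * m.den x1 * m.den x2)) * ((x - x2) * (x1 - x0)) := by
    field_simp
  rw [e1, e2, mul_div_mul_left]
  positivity

/-- a frame conjugates the maps -/
theorem frame_conj (d : ℕ) (m : Mb E) (p q p' q' : E[X]) (h : Cj d m p q p' q')
    (hp : p.natDegree ≤ d) (hq : q.natDegree ≤ d) (z : E) (hz : m.den z ≠ 0) (hq' : q'.eval z ≠ 0)
    (hz' : m.den (p'.eval z / q'.eval z) ≠ 0) (hqz : q.eval (m.app z) ≠ 0) :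
    m.app (p'.eval z / q'.eval z) = p.eval (m.app z) / q.eval (m.app z) := by
  have h1 := congrArg (Polynomial.eval z) h.eq
  have h2 : (C m.γ * X + C m.δ : E[X]).eval z = m.den z := by
    simp [Mb.den]
  have h3 : (C m.α * X + C m.β : E[X]).eval z / m.den z = m.app z := by
    simp [Mb.app]
  rw [eval_mul, eval_mul, hcm_eval d p _ _ hp z (by rw [h2]; exact hz),
    hcm_eval d q _ _ hq z (by rw [h2]; exact hz), h2, h3] at h1
  simp only [eval_add, eval_mul, eval_C] at h1
  have h4 : m.γ * p'.eval z + m.δ * q'.eval z = q'.eval z * m.den (p'.eval z / q'.eval z) := by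
    unfold Mb.den
    field_simp
  have h5 : m.α * p'.eval z + m.β * q'.eval z =
      q'.eval z * (m.α * (p'.eval z / q'.eval z) + m.β) := by
    field_simp
  rw [h4, h5] at h1
  have h6 : p.eval (m.app z) * m.den (p'.eval z / q'.eval z) =
      q.eval (m.app z) * (m.α * (p'.eval z / q'.eval z) + m.β) := by
    have h7 : m.den z ^ d * q'.eval z ≠ 0 := mul_ne_zero (pow_ne_zero _ hz) hq'
    apply mul_left_cancel₀ h7
    linear_combination h1
  unfold Mb.app at h6 ⊢
  rw [div_eq_div_iff hz' (by unfold Mb.app at hqz; exact hqz)]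
  linear_combination -h6

/-- the identity frame -/
theorem Cj_id (d : ℕ) (p q : E[X]) (h : RM d p q) : Cj d ⟨1, 0, 0, 1⟩ p q p q := by
  refine ⟨by simp [Mb.det], h, ?_⟩
  have hle := h.deg
  have h1 : ∀ A : E[X], A.natDegree ≤ d → hcm d A (C 1 * X + C 0) (C 0 * X + C 1) = A := by
    intro A hA
    unfold hcm
    conv_rhs => rw [A.as_sum_range_C_mul_X_pow' (n := d + 1) (by omega)]
    apply sum_congr rfl
    intro i _
    simp
  rw [h1 p (by rw [← hle]; exact le_max_left _ _), h1 q (by rw [← hle]; exact le_max_right _ _)]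
  simp
  ring

theorem Ov_zero (l d : ℕ) [ExpChar E l] (p q : E[X]) (h : RM d p q) :
    Ov l 0 d ⟨1, 0, 0, 1⟩ p q p q := by
  unfold Ov
  have e : iterateFrobenius E l 0 = RingHom.id E := by
    ext x
    simp
  rw [e, Polynomial.map_id, Polynomial.map_id]
  exact Cj_id d p q h

theorem RM_of_map (f : E →+* F) (d : ℕ) (p q : E[X]) (h : RM d (p.map f) (q.map f)) : RM d p q := by
  refine ⟨(isCoprime_map f).1 h.co, ?_⟩
  rw [← h.deg, natDegree_map, natDegree_map]

end

end Pool.Agent.Q111.SP
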