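import Pool.Agent.Q111.SP.Y10

/-! # Project SP, job Y15: the bound for orbits in characteristic `l` -/

set_option autoImplicit false

namespace Pool.Agent.Q111.SP

open Finset Polynomial
open Pool.Agent.Q41.SU Pool.Agent.Q41.SP
open Pool.Agent.W277.UH (ConjConst)

universe u

theorem orbit_card {α : Type*} [DecidableEq α] (f : α → α) (z : α) (P : Finset α)
    (hmem : ∀ i, f^[i] z ∈ P) (hs : ∀ y ∈ P, ∃ i, y = f^[i] z) :
    (∀ i < P.card, ∀ j < P.card, f^[i] z = f^[j] z → i = j) ∧
      ∃ i < P.card, f^[P.card] z = f^[i] z := by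
  have hex : ∃ m, m ≤ P.card ∧ ∃ i < m, f^[m] z = f^[i] z := by
    obtain ⟨i, hi, j, hj, hij, he⟩ : ∃ i ∈ range (P.card + 1), ∃ j ∈ range (P.card + 1), i ≠ j ∧
        f^[i] z = f^[j] z := by
      apply exists_ne_map_eq_of_card_lt_of_maps_to (t := P)
      · rw [card_range]
        omega
      · intro n _
        exact hmem n
    rw [mem_range] at hi hj
    rcases lt_or_gt_of_ne hij with h | h
    · exact ⟨j, by omega, i, h, he.symm⟩
    · exact ⟨i, by omega, j, h, he⟩
  obtain ⟨m, hm⟩ : ∃ m, m = Nat.find hex := ⟨_, rfl⟩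
  have hm1 := Nat.find_spec hex
  have hm2 : ∀ m' < m, ¬ (m' ≤ P.card ∧ ∃ i < m', f^[m'] z = f^[i] z) := by
    intro m' h'
    rw [hm] at h'
    exact Nat.find_min hex h'
  rw [← hm] at hm1
  obtain ⟨hmP, i₀, hi₀, he₀⟩ := hm1
  have hcl : ∀ j, f^[j] z ∈ (range m).image fun i => f^[i] z := by
    intro j
    induction j using Nat.strong_induction_on with
    | _ j ih =>
      rcases lt_or_ge j m with h | h
      · exact mem_image.2 ⟨j, mem_range.2 h, rfl⟩
      · have e1 : f^[j] z = f^[j - m + i₀] z := by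
          rw [Function.iterate_add_apply, ← he₀, ← Function.iterate_add_apply]
          congr 1
          omega
        rw [e1]
        exact ih _ (by omega)
  have hcard : P.card ≤ m := by
    have h1 : P ⊆ (range m).image fun i => f^[i] z := by
      intro y hy
      obtain ⟨i, rfl⟩ := hs y hy
      exact hcl i
    refine (card_le_card h1).trans (card_image_le.trans ?_)
    rw [card_range]
  have hmeq : m = P.card := le_antisymm hmP hcard
  subst hmeq
  refine ⟨?_, i₀, hi₀, he₀⟩
  intro i hi j hj hij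
  rcases lt_trichotomy i j with h | h | h
  · exact absurd ⟨hj.le, i, h, hij.symm⟩ (hm2 j hj)
  · exact h
  · exact absurd ⟨hi.le, j, h, hij⟩ (hm2 i hi)

theorem y15 : S_bhP.{u} → S_normP.{u} → S_ovP.{u} → S_sepP.{u} → S_infsP.{u} → S_orbP.{u} := by
  intro hbh hnorm hov hsep hinfs l n d hl hd
  have key : ∀ ν : ℕ, ∃ B : ℕ, 1 ≤ ν →
    ∀ (k E : Type u) [Field k] [IsAlgClosed k] [Field E] [Algebra k E] [Fact l.Prime]
    [CharP k l] [CharP E l] (t : E) (G : Subgroup (E ≃ₐ[k] E)) [Fintype G], IsGal k t G →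
    Fintype.card G = ν → ∀ p q : E[X], p.natDegree ≤ d → q.natDegree = d → IsCoprime p q →
    ∀ P : Finset E, Stab p q P →
    (∃ x₀ ∈ P, ∀ z ∈ P, ∃ i : ℕ, z = (fun y => p.eval y / q.eval y)^[i] x₀) →
    ¬ ConjConst k p q d → P.card ≤ B := by
    intro ν
    rcases Nat.eq_zero_or_pos ν with h0 | hν
    · exact ⟨0, fun h => by omega⟩
    obtain ⟨B₁, hB₁⟩ := hsep l d ν hl hd hν
    obtain ⟨B₂, hB₂⟩ := hinfs l d ν hl hd hν
    refine ⟨max (max B₁ B₂) (3 * d + 4), fun _ => ?_⟩
    intro k E _ _ _ _ _ _ _ t G _ hG hcard p q hp hq hco P hP hx hiso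
    classical
    obtain ⟨x₀, hx₀, horb⟩ := hx
    by_contra hlt
    push Not at hlt
    have hrm : RM d p q := RM_of E d p q hp hq hco
    obtain ⟨h, ⟨μ, p₀, q₀, hov0⟩, hmax⟩ := hbh l d k E t G hG hd p q hp hq hco P hP
      ((le_max_right _ _).trans hlt.le) hiso
    obtain ⟨μ', p₁, q₁, P', hov', hq1, hcard', hstab, hfr⟩ :=
      hnorm l h d k E p q p₀ q₀ μ P hd hrm hP hov0
    have hrm' := hov'.rm
    have hcj : Cj d μ' p q (p₁.map (iterateFrobenius E l h)) (q₁.map (iterateFrobenius E l h)) :=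
      hov'
    obtain ⟨p', hp'⟩ : ∃ p', p' = p₁.map (iterateFrobenius E l h) := ⟨_, rfl⟩
    obtain ⟨q', hq'⟩ : ∃ q', q' = q₁.map (iterateFrobenius E l h) := ⟨_, rfl⟩
    rw [← hp', ← hq'] at hrm' hstab hcj
    have hp'd : p'.natDegree ≤ d := by
      rw [← hrm'.deg]
      exact le_max_left _ _
    have hq'd : q'.natDegree = d := by
      rw [hq', natDegree_map, hq1]
    have hinj : Set.InjOn μ'.app P' := fun a ha b hb hab =>
      app_inj μ' hov'.det a b (hfr a ha).1 (hfr b hb).1 hab
    have himg : P'.image μ'.app = P := by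
      apply eq_of_subset_of_card_le
      · intro y hy
        obtain ⟨z, hz, rfl⟩ := mem_image.1 hy
        exact (hfr z hz).2
      · rw [card_image_of_injOn hinj, hcard']
    rw [← himg] at hx₀
    obtain ⟨z₀, hz₀, hz₀x⟩ := mem_image.1 hx₀
    obtain ⟨f', hf'⟩ : ∃ f' : E → E, f' = fun y => p'.eval y / q'.eval y := ⟨_, rfl⟩
    have hmem : ∀ i, f'^[i] z₀ ∈ P' := by
      intro i
      induction i with
      | zero => exact hz₀
      | succ i ih =>
        rw [Function.iterate_succ_apply', hf']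
        rw [hf'] at ih
        exact (hstab _ ih).2
    have hconj : ∀ i, μ'.app (f'^[i] z₀) = (fun y => p.eval y / q.eval y)^[i] x₀ := by
      intro i
      induction i with
      | zero => exact hz₀x
      | succ i ih =>
        rw [Function.iterate_succ_apply', Function.iterate_succ_apply', ← ih]
        have h1 := hmem i
        obtain ⟨z, hz⟩ : ∃ z, z = f'^[i] z₀ := ⟨_, rfl⟩
        rw [← hz] at h1 ⊢
        rw [hf']
        exact frame_conj d μ' p q p' q' hcj hp hq.le z (hfr z h1).1 (hstab z h1).1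
          (hfr _ (hstab z h1).2).1 (hP _ (hfr z h1).2).1
    have hsurj : ∀ z ∈ P', ∃ i, z = f'^[i] z₀ := by
      intro z hz
      obtain ⟨i, hi⟩ := horb (μ'.app z) (hfr z hz).2
      refine ⟨i, ?_⟩
      rw [← hconj i] at hi
      exact app_inj μ' hov'.det _ _ (hfr z hz).1 (hfr _ (hmem i)).1 hi
    obtain ⟨ho1, ho2⟩ := orbit_card f' z₀ P' hmem hsurj
    have hstep : ∀ i, q'.eval (f'^[i] z₀) ≠ 0 ∧
        f'^[i + 1] z₀ = p'.eval (f'^[i] z₀) / q'.eval (f'^[i] z₀) := by
      intro i
      refine ⟨(hstab _ (hmem i)).1, ?_⟩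
      rw [Function.iterate_succ_apply', hf']
    have hOv0 : Ov l 0 d μ' p q p' q' := by
      unfold Ov
      have e : iterateFrobenius E l 0 = RingHom.id E := by
        ext x
        simp
      rw [e, Polynomial.map_id, Polynomial.map_id]
      exact hcj
    have hiso' : ¬ ConjConst k p' q' d := fun hc =>
      hiso ((hov l 0 0 d k E p q p' q' (by omega) hrm).2.2 μ' hOv0 hc)
    have hmax' : ∀ h', Hgt l h' d p' q' → h' ≤ h := by
      intro h' hh
      rw [hp', hq'] at hh
      exact hmax h' ((hov l 0 h d k E p q p₁ q₁ (by omega) hrm).2.1 μ' hov' h' hh)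
    have hfin : P'.card ≤ max B₁ B₂ := by
      by_cases hwr : wr p' q' = 0
      · exact (hB₂ k E t G hG hcard h p' q' p₁ q₁ hp' hq' hp'd hq'd hrm'.co hiso' hmax' hwr
          (fun i => f'^[i] z₀) P'.card hstep ho1 ho2).trans (le_max_right _ _)
      · exact (hB₁ k E t G hG hcard h p' q' p₁ q₁ hp' hq' hp'd hq'd hrm'.co hiso' hmax' hwr
          (fun i => f'^[i] z₀) P'.card hstep ho1 ho2).trans (le_max_left _ _)
    rw [hcard'] at hfin
    have := hfin.trans (le_max_left _ (3 * d + 4))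
    omega
  choose B hB using key
  refine ⟨(range (n + 1)).sup B, ?_⟩
  intro k E _ _ _ _ _ _ _ t G _ hG hcard p q hp hq hco P hP hx hiso
  refine (hB (Fintype.card G) Fintype.card_pos k E t G hG rfl p q hp hq hco P hP hx hiso).trans ?_
  exact le_sup (f := B) (mem_range.2 (by omega))

end Pool.Agent.Q111.SP
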